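import Mathlib
import Pool.Agent.H85.FPS.Folner

/-!
# Zero rank gradient, hence the conclusion of the `F_p`-Singer conjecture in degree one, for chains
in virtually fibred groups that see an amenable quotient
-/

set_option autoImplicit false

namespace Pool.Agent.Results.MP_350daa_gt.RankGradientZero

/-- Folner's condition: for every finite `E` and `ε > 0` there is a finite nonempty `B` such that
`e B` leaves `B` in at most `ε |B|` points for every `e ∈ E`. -/
def Amenable (A : Type) [Group A] : Prop :=
  ∀ (E : Finset A) (ε : ℝ), 0 < ε → ∃ B : Finset A, B.Nonempty ∧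
    ∀ e ∈ E, ({b : A | b ∈ B ∧ e * b ∉ B}.ncard : ℝ) ≤ ε * B.card

/-- **Main theorem.** Let `G₀` be a finite index subgroup of `G` with a surjection `χ : G₀ → ℤ`
whose kernel is finitely generated, let `M` be a normal subgroup of `G₀` with `G₀ / M` amenable,
and let `H 0 ≥ H 1 ≥ ...` be normal subgroups of finite index in `G` such that every `g ∈ G₀` with
`χ g ≠ 0` lies outside `(H k ∩ G₀) M` for some `k`. Then for every `ε > 0` and all large `k` the
group `H k` is generated by at most `ε [G : H k]` elements, and its first Betti number over every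
field `F` is at most `ε [G : H k]`. -/
theorem result {G : Type} [Group G] (G₀ : Subgroup G) [G₀.FiniteIndex]
    (χ : G₀ →* Multiplicative ℤ) (hχ : Function.Surjective χ) (hfg : χ.ker.FG)
    (M : Subgroup G₀) [M.Normal] (hA : Amenable (G₀ ⧸ M))
    (H : ℕ → Subgroup G) (hH : Antitone H) (hn : ∀ k, (H k).Normal)
    (hf : ∀ k, (H k).FiniteIndex)
    (hsep : ∀ g : G₀, χ g ≠ 1 → ∃ k, g ∉ (H k).subgroupOf G₀ ⊔ M)
    (ε : ℝ) (hε : 0 < ε) :
    ∃ k₀, ∀ k ≥ k₀,
      (∃ T : Finset G, Subgroup.closure (T : Set G) = H k ∧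
        (T.card : ℝ) ≤ ε * (H k).index) ∧
      ∀ (F : Type) [Field F], Module.Finite F (Additive (H k) →+ F) ∧
        (Module.finrank F (Additive (H k) →+ F) : ℝ) ≤ ε * (H k).index :=
  Pool.Agent.H85.FPS.nested_main G₀ χ hχ hfg M hA H hH hn hf hsep ε hε

end Pool.Agent.Results.MP_350daa_gt.RankGradientZero
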